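import Pool.Agent.Helper6.MONO.Stmts

/-!
# EQE: the program computes the explicit formulas (even case)
-/

set_option autoImplicit false
noncomputable section
namespace Pool.Agent.Helper6.MONO

/-- the sign -/
theorem eqe_rsg (e : Bool) (x : ℝ) : rsg e x = rsg e 1 * x := by
  cases e
  · simp [rsg_false]
  · simp [rsg_true]

/-- numerator of `ydP` -/
def eqeN (s b0 Sg : ℝ) (z : RSt) (yr : ℝ) : ℝ :=
  2 * (z.a * z.ad + s * (z.b * z.bd)) + (1 + s) * (z.b * z.b)
    + Sg * (1 + s) *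
      (yr * yr + s * (z.be * z.be) + 2 * s * (z.be * z.bed) + (1 + s) * (z.be * z.be))
    - b0 * ((1 + s) * z.be + s * z.bed)

/-- `Y_r'` -/
def eqeYr (s b0 Sg : ℝ) (z : RSt) (yr iv : ℝ) : ℝ := (1 + s) * (yr + eqeN s b0 Sg z yr * iv)

/-- real and imaginary part of `q' = D' Q` -/
def eqeqr (s : ℝ) (Q : RC) (dl ep xr xi yr yi : ℝ) : ℝ :=
  (dl * Q.r) * xr - s * ((dl * Q.i) * xi) + ((ep * Q.r) * yr - s * ((ep * Q.i) * yi))
def eqeqi (Q : RC) (dl ep xr xi yr yi : ℝ) : ℝ :=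
  (dl * Q.r) * xi + (dl * Q.i) * xr + ((ep * Q.r) * yi + (ep * Q.i) * yr)

/-- the last phases -/
theorem eqe_ph3 (s : ℝ) (eps cj : Bool) (z : RSt) (b0 Sg yr : ℝ) (w yQ D Q P V : RC)
    (dl ep iv : ℝ) :
    (r_ph3 s (1 + s) eps cj z b0 Sg yr ((1 + s) * rsg eps z.be) w yQ D Q P V dl ep (z.b * z.b)
      (z.be * z.be) iv).st.ad =
      P.r * dXr s eps z - s * (P.i * dXi z) + (V.r * eqeYr s b0 Sg z yr iv - s * (V.i * dYi s eps z))
        + ((1 + s) * (w.i * D.i)) * Q.r ∧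
    (r_ph3 s (1 + s) eps cj z b0 Sg yr ((1 + s) * rsg eps z.be) w yQ D Q P V dl ep (z.b * z.b)
      (z.be * z.be) iv).st.bd =
      rsg cj (P.r * dXi z + P.i * dXr s eps z + (V.r * dYi s eps z + V.i * eqeYr s b0 Sg z yr iv)
        + ((1 + s) * (w.i * D.i)) * Q.i) ∧
    (r_ph3 s (1 + s) eps cj z b0 Sg yr ((1 + s) * rsg eps z.be) w yQ D Q P V dl ep (z.b * z.b)
      (z.be * z.be) iv).st.bed =
      rsg cj (-(yQ.r * eqeqi Q dl ep (dXr s eps z) (dXi z) (eqeYr s b0 Sg z yr iv) (dYi s eps z) +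
        yQ.i * eqeqr s Q dl ep (dXr s eps z) (dXi z) (eqeYr s b0 Sg z yr iv) (dYi s eps z)) +
        (1 + s) * ((Q.i * D.i) * yQ.i)) ∧
    (r_ph3 s (1 + s) eps cj z b0 Sg yr ((1 + s) * rsg eps z.be) w yQ D Q P V dl ep (z.b * z.b)
      (z.be * z.be) iv).L =
      2 * eqeqr s Q dl ep (dXr s eps z) (dXi z) (eqeYr s b0 Sg z yr iv) (dYi s eps z) -
        (1 + s) * (Q.i * D.i) - 1 := by
  obtain ⟨σ, hσ⟩ : ∃ σ : ℝ, ∀ x, rsg eps x = σ * x := ⟨rsg eps 1, eqe_rsg eps⟩
  refine ⟨?_, ?_, ?_, ?_⟩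
  · simp only [r_ph3, r_ph4, r_ph5, r_final, r_mulca, r_mulcb, r_cg, r_cc, RC.add, RC.sc, dXr, dXi,
      dYi, eqeYr, eqeN, hσ]
    ring
  · simp only [r_ph3, r_ph4, r_ph5, r_final, r_mulca, r_mulcb, r_cg, r_cc, RC.add, RC.sc, dXr, dXi,
      dYi, eqeYr, eqeN, hσ]
    congr 1
    ring
  · simp only [r_ph3, r_ph4, r_ph5, r_final, r_mulca, r_mulcb, r_cg, r_cc, r_imm, RC.add, RC.sc, dXr,
      dXi, dYi, eqeYr, eqeN, eqeqr, eqeqi, hσ]
    congr 1
    ring
  · simp only [r_ph3, r_ph4, r_ph5, r_final, r_mulca, r_mulcb, r_cg, r_cc, r_imm, RC.add, RC.sc, dXr,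
      dXi, dYi, eqeYr, eqeN, eqeqr, hσ]
    ring

/-- the algebra of the derivative of a quotient in `ℝ[ι]`, `ι² = -s` -/
theorem eqe_alg (s Dr Di q wr wi n1 dl n2 ep yf xr xi yr yi Nr Ni : ℝ) (U V : RC)
    (hq : (Dr * Dr + s * (Di * Di)) * q = 1)
    (hNr : Nr = wr * Dr - s * (wi * Di)) (hNi : Ni = wi * Dr + wr * Di)
    (hUr : U.r = n1 * Dr - dl * Nr) (hUi : U.i = n1 * Di - dl * Ni)
    (hVr : V.r = -(n2 * Dr) - ep * Nr) (hVi : V.i = -(n2 * Di) - ep * Ni) :
    (RC.mul s U (RC.mul s ⟨Dr * q, -(Di * q)⟩ ⟨Dr * q, -(Di * q)⟩)).r * xr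
      - s * ((RC.mul s U (RC.mul s ⟨Dr * q, -(Di * q)⟩ ⟨Dr * q, -(Di * q)⟩)).i * xi)
      + ((RC.mul s V (RC.mul s ⟨Dr * q, -(Di * q)⟩ ⟨Dr * q, -(Di * q)⟩)).r * yr
      - s * ((RC.mul s V (RC.mul s ⟨Dr * q, -(Di * q)⟩ ⟨Dr * q, -(Di * q)⟩)).i * yi))
      + ((1 + s) * (wi * Di)) * (Dr * q) =
      (((n1 * xr - n2 * yr) * Dr + Nr * (dl * xr + ep * yr)
        + s * ((n1 * xi - n2 * yi) * Di + Ni * (dl * xi + ep * yi)) + (1 + s) * (Ni * Di))
        - wr * (2 * (Dr * (dl * xr + ep * yr) + s * (Di * (dl * xi + ep * yi)))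
          + (1 + s) * (Di * Di))) * q ∧
    (RC.mul s U (RC.mul s ⟨Dr * q, -(Di * q)⟩ ⟨Dr * q, -(Di * q)⟩)).r * xi
      + (RC.mul s U (RC.mul s ⟨Dr * q, -(Di * q)⟩ ⟨Dr * q, -(Di * q)⟩)).i * xr
      + ((RC.mul s V (RC.mul s ⟨Dr * q, -(Di * q)⟩ ⟨Dr * q, -(Di * q)⟩)).r * yi
      + (RC.mul s V (RC.mul s ⟨Dr * q, -(Di * q)⟩ ⟨Dr * q, -(Di * q)⟩)).i * yr)
      + ((1 + s) * (wi * Di)) * (-(Di * q)) =
      (((n1 * xi - n2 * yi) * Dr + Ni * (dl * xr + ep * yr)
        - (n1 * xr - n2 * yr) * Di - Nr * (dl * xi + ep * yi))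
        - wi * (2 * (Dr * (dl * xr + ep * yr) + s * (Di * (dl * xi + ep * yi)))
          + (1 + s) * (Di * Di))) * q ∧
    -((yf * (Dr * q)) * eqeqi ⟨Dr * q, -(Di * q)⟩ dl ep xr xi yr yi
      + (yf * (-(Di * q))) * eqeqr s ⟨Dr * q, -(Di * q)⟩ dl ep xr xi yr yi)
      + (1 + s) * ((-(Di * q) * Di) * (yf * (-(Di * q)))) =
      -(yf * ((dl * xi + ep * yi) - Di * (2 * (Dr * (dl * xr + ep * yr)
        + s * (Di * (dl * xi + ep * yi))) + (1 + s) * (Di * Di)) * q)) * q ∧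
    2 * eqeqr s ⟨Dr * q, -(Di * q)⟩ dl ep xr xi yr yi - (1 + s) * (-(Di * q) * Di) - 1 =
      (2 * (Dr * (dl * xr + ep * yr) + s * (Di * (dl * xi + ep * yi))) + (1 + s) * (Di * Di)) * q
        - 1 := by
  subst hNr hNi
  refine ⟨?_, ?_, ?_, ?_⟩
  · simp only [RC.mul, hUr, hUi, hVr, hVi]
    linear_combination (q * (((n1 - dl * wr) * Dr - s * (dl * wi) * Di) * xr
      - s * ((-(dl * wi) * Dr - (n1 - dl * wr) * Di) * xi)
      + ((-n2 - ep * wr) * Dr - s * (ep * wi) * Di) * yr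
      - s * ((-(ep * wi) * Dr - (-n2 - ep * wr) * Di) * yi))) * hq
  · simp only [RC.mul, hUr, hUi, hVr, hVi]
    linear_combination (q * (((n1 - dl * wr) * Dr - s * (dl * wi) * Di) * xi
      + (-(dl * wi) * Dr - (n1 - dl * wr) * Di) * xr
      + ((-n2 - ep * wr) * Dr - s * (ep * wi) * Di) * yi
      + (-(ep * wi) * Dr - (-n2 - ep * wr) * Di) * yr)) * hq
  · simp only [eqeqr, eqeqi]
    linear_combination (-(yf * q * (dl * xi + ep * yi))) * hq
  · simp only [eqeqr]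
    ring

/-- the inverse -/
theorem eqe_inv (s Dr Di : ℝ) (hs : 0 ≤ s) (hD : 0 < Dr) :
    RC.inv s ⟨Dr, Di⟩ = ⟨Dr * (1 / (Dr * Dr + s * (Di * Di))),
      -(Di * (1 / (Dr * Dr + s * (Di * Di))))⟩ := by
  have h1 : 0 ≤ s * (Di * Di) := mul_nonneg hs (mul_self_nonneg _)
  have h2 : 0 < Dr * Dr := mul_pos hD hD
  have hn : Dr * Dr + s * (Di * Di) ≠ 0 := by linarith
  have h3 : Dr + s * ((Di * Di) * (1 / Dr)) = (Dr * Dr + s * (Di * Di)) / Dr := by
    field_simp
  simp only [RC.inv, RC.inv1, RC.inv2]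
  rw [h3]
  have hD' : Dr ≠ 0 := hD.ne'
  have e1 : 1 / ((Dr * Dr + s * (Di * Di)) / Dr) = Dr * (1 / (Dr * Dr + s * (Di * Di))) := by
    rw [one_div_div, div_eq_mul_one_div]
  have e2 : Di * (1 / Dr) * (1 / ((Dr * Dr + s * (Di * Di)) / Dr)) =
      Di * (1 / (Dr * Dr + s * (Di * Di))) := by
    rw [e1]
    field_simp
  rw [e1, ← e1, e2, e1]

/-- the phases after the parameters -/
def eqeD (s : ℝ) (ε : Bool) (z : RSt) (k hd he R : ℝ) : RC :=
  RC.mk (1 + (((2 * (R * gP k hd he)) * (r_cX s ε z.a z.b).r) +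
      (((R * R - SbP k) * (gP k hd he * gP k hd he)) * (r_cY (1 + s) ε z.yr z.be).r)))
    (rsg ε (b0P k hd he) + (((2 * (R * gP k hd he)) * (r_cX s ε z.a z.b).i) +
      (((R * R - SbP k) * (gP k hd he * gP k hd he)) * (r_cY (1 + s) ε z.yr z.be).i)))

def eqeT (s : ℝ) (ε : Bool) (z : RSt) (k hd he R : ℝ) : RC :=
  RC.mk ((r_cX s ε z.a z.b).r + (R * gP k hd he) * (r_cY (1 + s) ε z.yr z.be).r)
    ((r_cX s ε z.a z.b).i + (R * gP k hd he) * (r_cY (1 + s) ε z.yr z.be).i)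

def eqerho (k hd he R : ℝ) : ℝ := (R * R + SbP k) * gP k hd he

def eqenum (s : ℝ) (ε : Bool) (z : RSt) (k hd he R : ℝ) : ℝ :=
  (((eqeT s ε z k hd he R).i + ((gP k hd he * eqerho k hd he R) *
    (((r_cY (1 + s) ε z.yr z.be).i * (r_cX s ε z.a z.b).r) -
      ((r_cY (1 + s) ε z.yr z.be).r * (r_cX s ε z.a z.b).i)))) -
    (rsg ε (b0P k hd he) * (eqeT s ε z k hd he R).r))

def eqew (s : ℝ) (ε : Bool) (z : RSt) (k hd he R : ℝ) (Q : RC) (iD : ℝ) : RC :=
  RC.mk (R - (eqerho k hd he R * (((eqeT s ε z k hd he R).r * Q.r) -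
      (s * ((eqeT s ε z k hd he R).i * Q.i)))))
    (-(eqerho k hd he R * (eqenum s ε z k hd he R * (iD * Q.r))))

def eqeU (s : ℝ) (ε : Bool) (z : RSt) (k hd he R : ℝ) : RC :=
  RC.mk (-(eqerho k hd he R * (1 - ((gP k hd he * eqerho k hd he R) *
      (r_cY (1 + s) ε z.yr z.be).r))))
    (-(eqerho k hd he R * (rsg ε (b0P k hd he) - ((gP k hd he * eqerho k hd he R) *
      (r_cY (1 + s) ε z.yr z.be).i))))

def eqeV (s : ℝ) (ε : Bool) (z : RSt) (k hd he R : ℝ) : RC :=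
  RC.mk (-((gP k hd he * eqerho k hd he R) * (R + (eqerho k hd he R * (r_cX s ε z.a z.b).r))))
    (-((gP k hd he * eqerho k hd he R) * ((R * rsg ε (b0P k hd he)) +
      (eqerho k hd he R * (r_cX s ε z.a z.b).i))))

def eqeLast (s : ℝ) (ε : Bool) (z : RSt) (k hd he R : ℝ) : RRes :=
  r_ph3 s (1 + s) ε (Bool.rec (motive := fun _ => Bool) true false ε) z (b0P k hd he)
    (SbP k * (gP k hd he * gP k hd he)) z.yr ((1 + s) * rsg ε z.be)
    (eqew s ε z k hd he R (RC.inv s (eqeD s ε z k hd he R)) (1 / (eqeD s ε z k hd he R).r))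
    (RC.sc (R * R + SbP k) (RC.inv s (eqeD s ε z k hd he R))) (eqeD s ε z k hd he R)
    (RC.inv s (eqeD s ε z k hd he R))
    (RC.mul s (eqeU s ε z k hd he R) (RC.mul s (RC.inv s (eqeD s ε z k hd he R))
      (RC.inv s (eqeD s ε z k hd he R))))
    (RC.mul s (eqeV s ε z k hd he R) (RC.mul s (RC.inv s (eqeD s ε z k hd he R))
      (RC.inv s (eqeD s ε z k hd he R))))
    (2 * (R * gP k hd he)) ((R * R - SbP k) * (gP k hd he * gP k hd he)) (z.b * z.b) (z.be * z.be)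
    (1 / (1 - (2 * (((1 + s) * (SbP k * (gP k hd he * gP k hd he))) * z.yr))))

theorem eqe_unf (s : ℝ) (ε : Bool) (z : RSt) (k hd he R : ℝ) (h : NR s k hd he z.val) :
    r_stp s ε true z k hd he R = r_chk (k * hd) (r_chk (2 * (1 + ((2 * he) * (1 / (k * hd)))))
      (r_chk (k * k) (r_chk (hd * hd) (r_chk (eqeD s ε z k hd he R).r
        (r_chk (1 - (2 * (((1 + s) * (SbP k * (gP k hd he * gP k hd he))) * z.yr)))
          (eqeLast s ε z k hd he R)))))) := by
  have hb0 : (2 * (2 * gP k hd he)) - 1 = b0P k hd he := by unfold b0P; ring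
  have hy : r_itY (r_cA s (SbP hd) (b0P k hd he) z)
      ((1 + s) * (SbP k * (gP k hd he * gP k hd he))) (s * (z.be * z.be)) z.yr = z.yr := by
    have h1 : z.yr = z.a * z.a + s * (z.b * z.b) + SbP hd
      + SbP k * (gP k hd he * gP k hd he) * (1 + s) * (z.yr * z.yr + s * (z.be * z.be))
      - s * (b0P k hd he * z.be) := h
    unfold r_itY r_cA
    conv_rhs => rw [h1]
    ring
  have h1 : r_stp s ε true z k hd he R = r_chk (k * hd) (r_chk (2 * (1 + ((2 * he) * (1 / (k * hd)))))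
      (r_chk (k * k) (r_chk (hd * hd) (r_qe1 s (1 + s) ε z (gP k hd he) ((2 * (2 * gP k hd he)) - 1)
        (SbP k) (SbP k * (gP k hd he * gP k hd he)) (r_cA s (SbP hd) ((2 * (2 * gP k hd he)) - 1) z)
        ((1 + s) * (SbP k * (gP k hd he * gP k hd he))) (s * (z.be * z.be)) R (R * R)
        (R * R + SbP k))))) := rfl
  rw [h1, hb0]
  unfold r_qe1
  rw [hy, hy]
  rfl

theorem eqe_cX (s : ℝ) (ε : Bool) (z : RSt) :
    (r_cX s ε z.a z.b).r = vXr s ε z.val ∧ (r_cX s ε z.a z.b).i = vXi z.val := ⟨rfl, rfl⟩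

theorem eqe_cY (s : ℝ) (ε : Bool) (z : RSt) :
    (r_cY (1 + s) ε z.yr z.be).r = vYr s z.val ∧ (r_cY (1 + s) ε z.yr z.be).i = vYi s ε z.val :=
  ⟨rfl, rfl⟩

theorem eqe_D (s : ℝ) (ε : Bool) (z : RSt) (k hd he R : ℝ) :
    eqeD s ε z k hd he R = ⟨vDr s ε true z.val k hd he R, vDi s ε true z.val k hd he R⟩ := by
  unfold eqeD vDr vDi CrP CiP
  rw [(eqe_cX s ε z).1, (eqe_cX s ε z).2, (eqe_cY s ε z).1, (eqe_cY s ε z).2, if_pos rfl, if_pos rfl]
  congr 1 <;> ring

theorem eqe_N (s : ℝ) (ε : Bool) (z : RSt) (k hd he R : ℝ) :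
    vNr s ε z.val k hd he R = R * vDr s ε true z.val k hd he R -
      eqerho k hd he R * (eqeT s ε z k hd he R).r ∧
    vNi s ε z.val k hd he R = R * vDi s ε true z.val k hd he R -
      eqerho k hd he R * (eqeT s ε z k hd he R).i := by
  unfold eqerho eqeT vNr vNi vDr vDi CrP CiP
  rw [(eqe_cX s ε z).1, (eqe_cX s ε z).2, (eqe_cY s ε z).1, (eqe_cY s ε z).2, if_pos rfl, if_pos rfl]
  constructor <;> ring

theorem eqe_num (s : ℝ) (ε : Bool) (z : RSt) (k hd he R : ℝ) :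
    eqenum s ε z k hd he R = (eqeT s ε z k hd he R).i * vDr s ε true z.val k hd he R -
      (eqeT s ε z k hd he R).r * vDi s ε true z.val k hd he R := by
  unfold eqenum eqerho eqeT vDr vDi CrP CiP
  rw [(eqe_cX s ε z).1, (eqe_cX s ε z).2, (eqe_cY s ε z).1, (eqe_cY s ε z).2, if_pos rfl, if_pos rfl]
  ring

theorem eqe_UV (s : ℝ) (ε : Bool) (z : RSt) (k hd he R : ℝ) :
    (eqeU s ε z k hd he R).r = ((R * R - SbP k) * gP k hd he) * vDr s ε true z.val k hd he R -
      (2 * (R * gP k hd he)) * vNr s ε z.val k hd he R ∧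
    (eqeU s ε z k hd he R).i = ((R * R - SbP k) * gP k hd he) * vDi s ε true z.val k hd he R -
      (2 * (R * gP k hd he)) * vNi s ε z.val k hd he R ∧
    (eqeV s ε z k hd he R).r = -((2 * (SbP k * R * (gP k hd he * gP k hd he))) *
      vDr s ε true z.val k hd he R) -
      ((R * R - SbP k) * (gP k hd he * gP k hd he)) * vNr s ε z.val k hd he R ∧
    (eqeV s ε z k hd he R).i = -((2 * (SbP k * R * (gP k hd he * gP k hd he))) *
      vDi s ε true z.val k hd he R) -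
      ((R * R - SbP k) * (gP k hd he * gP k hd he)) * vNi s ε z.val k hd he R := by
  unfold eqeU eqeV eqerho vNr vNi vDr vDi CrP CiP
  rw [(eqe_cX s ε z).1, (eqe_cX s ε z).2, (eqe_cY s ε z).1, (eqe_cY s ε z).2, if_pos rfl, if_pos rfl]
  refine ⟨?_, ?_, ?_, ?_⟩ <;> ring

theorem eqe_Y (s k hd he : ℝ) (z : RSt) :
    eqeYr s (b0P k hd he) (SbP k * (gP k hd he * gP k hd he)) z z.yr
      (1 / (1 - (2 * (((1 + s) * (SbP k * (gP k hd he * gP k hd he))) * z.yr)))) =
      dYr s z (ydP s k hd he z) := by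
  have h1 : 1 - (2 * (((1 + s) * (SbP k * (gP k hd he * gP k hd he))) * z.yr)) =
      1 - 2 * (SbP k * (gP k hd he * gP k hd he)) * (1 + s) * z.yr := by ring
  rw [h1]
  unfold eqeYr eqeN dYr ydP
  rw [mul_one_div]

theorem eqe_cj (ε : Bool) : (Bool.rec (motive := fun _ => Bool) true false ε : Bool) =
    !(cjP ε true) := by
  cases ε <;> rfl

theorem st_EQE : ST_EQ true := by
  intro s k hd he R ε z hs hk hhd hhe hNR hck
  rw [eqe_unf s ε z k hd he R hNR] at hck ⊢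
  obtain ⟨_, _, _, _, hD, hv, _⟩ := hck
  simp only [r_chk]
  rw [eqe_D] at hD
  change 0 < vDr s ε true z.val k hd he R at hD
  have hnn : 0 ≤ s * (vDi s ε true z.val k hd he R * vDi s ε true z.val k hd he R) :=
    mul_nonneg hs (mul_self_nonneg _)
  have hDD : 0 < vDr s ε true z.val k hd he R * vDr s ε true z.val k hd he R := mul_pos hD hD
  have hn : 0 < vn s ε true z.val k hd he R := by
    unfold vn
    linarith
  have hv' : 0 < 1 - 2 * (SbP k * (gP k hd he * gP k hd he)) * (1 + s) * z.yr := by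
    have h1 : 1 - (2 * (((1 + s) * (SbP k * (gP k hd he * gP k hd he))) * z.yr)) =
        1 - 2 * (SbP k * (gP k hd he * gP k hd he)) * (1 + s) * z.yr := by ring
    rw [← h1]
    exact hv
  refine ⟨hD, hn, hv', ?_⟩
  -- the inverse
  have hQ : RC.inv s (eqeD s ε z k hd he R) =
      ⟨vDr s ε true z.val k hd he R * (1 / vn s ε true z.val k hd he R),
        -(vDi s ε true z.val k hd he R * (1 / vn s ε true z.val k hd he R))⟩ := by
    rw [eqe_D]
    exact eqe_inv s _ _ hs hD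
  have hq : (vDr s ε true z.val k hd he R * vDr s ε true z.val k hd he R +
      s * (vDi s ε true z.val k hd he R * vDi s ε true z.val k hd he R)) *
      (1 / vn s ε true z.val k hd he R) = 1 := by
    have h1 : vDr s ε true z.val k hd he R * vDr s ε true z.val k hd he R +
      s * (vDi s ε true z.val k hd he R * vDi s ε true z.val k hd he R) =
      vn s ε true z.val k hd he R := rfl
    rw [h1]
    exact mul_one_div_cancel hn.ne'
  obtain ⟨hN1, hN2⟩ := eqe_N s ε z k hd he R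
  have hnum := eqe_num s ε z k hd he R
  obtain ⟨hU1, hU2, hV1, hV2⟩ := eqe_UV s ε z k hd he R
  have hw : eqew s ε z k hd he R (RC.inv s (eqeD s ε z k hd he R)) (1 / (eqeD s ε z k hd he R).r) =
      ⟨vwr s ε true z.val k hd he R, vwi s ε true z.val k hd he R⟩ := by
    rw [hQ]
    unfold eqew vwr vwi
    rw [eqe_D, hnum, hN1, hN2]
    congr 1
    · rw [div_eq_mul_one_div (_ + _)]
      linear_combination (-R) * hq
    · rw [div_eq_mul_one_div (_ - _)]
      have h1 : (1 / vDr s ε true z.val k hd he R) * (vDr s ε true z.val k hd he R *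
          (1 / vn s ε true z.val k hd he R)) = 1 / vn s ε true z.val k hd he R := by
        rw [← mul_assoc, one_div_mul_cancel hD.ne', one_mul]
      rw [h1]
      ring
  have hwr : vNr s ε z.val k hd he R = vwr s ε true z.val k hd he R * vDr s ε true z.val k hd he R -
      s * (vwi s ε true z.val k hd he R * vDi s ε true z.val k hd he R) := by
    unfold vwr vwi
    rw [div_eq_mul_one_div (_ + _), div_eq_mul_one_div (_ - _)]
    linear_combination (-(vNr s ε z.val k hd he R)) * hq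
  have hwi : vNi s ε z.val k hd he R = vwi s ε true z.val k hd he R * vDr s ε true z.val k hd he R +
      vwr s ε true z.val k hd he R * vDi s ε true z.val k hd he R := by
    unfold vwr vwi
    rw [div_eq_mul_one_div (_ + _), div_eq_mul_one_div (_ - _)]
    linear_combination (-(vNi s ε z.val k hd he R)) * hq
  have halg := eqe_alg s (vDr s ε true z.val k hd he R) (vDi s ε true z.val k hd he R)
    (1 / vn s ε true z.val k hd he R) (vwr s ε true z.val k hd he R) (vwi s ε true z.val k hd he R)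
    ((R * R - SbP k) * gP k hd he) (2 * (R * gP k hd he))
    (2 * (SbP k * R * (gP k hd he * gP k hd he))) ((R * R - SbP k) * (gP k hd he * gP k hd he))
    (R * R + SbP k) (dXr s ε z) (dXi z) (dYr s z (ydP s k hd he z)) (dYi s ε z)
    (vNr s ε z.val k hd he R) (vNi s ε z.val k hd he R) (eqeU s ε z k hd he R)
    (eqeV s ε z k hd he R) hq hwr hwi hU1 hU2 hV1 hV2
  obtain ⟨hA, hB, hC, hE⟩ := halg
  have hph := eqe_ph3 s ε (!(cjP ε true)) z (b0P k hd he) (SbP k * (gP k hd he * gP k hd he)) z.yr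
    (eqew s ε z k hd he R (RC.inv s (eqeD s ε z k hd he R)) (1 / (eqeD s ε z k hd he R).r))
    (RC.sc (R * R + SbP k) (RC.inv s (eqeD s ε z k hd he R))) (eqeD s ε z k hd he R)
    (RC.inv s (eqeD s ε z k hd he R))
    (RC.mul s (eqeU s ε z k hd he R) (RC.mul s (RC.inv s (eqeD s ε z k hd he R))
      (RC.inv s (eqeD s ε z k hd he R))))
    (RC.mul s (eqeV s ε z k hd he R) (RC.mul s (RC.inv s (eqeD s ε z k hd he R))
      (RC.inv s (eqeD s ε z k hd he R))))
    (2 * (R * gP k hd he)) ((R * R - SbP k) * (gP k hd he * gP k hd he))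
    (1 / (1 - (2 * (((1 + s) * (SbP k * (gP k hd he * gP k hd he))) * z.yr))))
  rw [eqe_Y, hw, hQ, eqe_D] at hph
  obtain ⟨p1, p2, p3, p4⟩ := hph
  have hcr : yfP true k hd he R = R * R + SbP k := by
    unfold yfP crP
    rw [if_pos rfl, one_mul]
  unfold eqeLast
  rw [eqe_cj, hw, hQ, eqe_D]
  refine ⟨?_, ?_, ?_, ?_, ?_⟩
  · unfold vstep
    simp only [RSt.val, r_ph3, r_ph4, r_ph5, r_final, RC.sc, hcr]
    congr 1
    · congr 1
      change (R * R + SbP k) * (-(vDi s ε true z.val k hd he R *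
        (1 / vn s ε true z.val k hd he R))) = -((R * R + SbP k) * vDi s ε true z.val k hd he R /
        vn s ε true z.val k hd he R)
      rw [div_eq_mul_one_div (_ * _)]
      ring
    · change (R * R + SbP k) * (vDr s ε true z.val k hd he R *
        (1 / vn s ε true z.val k hd he R)) = (R * R + SbP k) * vDr s ε true z.val k hd he R /
        vn s ε true z.val k hd he R
      rw [div_eq_mul_one_div (_ * _)]
      ring
  · exact p1.trans (hA.trans (mul_one_div _ _))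
  · exact p2.trans (congrArg (rsg _) (hB.trans (mul_one_div _ _)))
  · have hdy : dyi s ε true z k hd he R (ydP s k hd he z) =
        -((R * R + SbP k) * (dDi s ε z k hd he R - vDi s ε true z.val k hd he R *
          dn s ε true z k hd he R (ydP s k hd he z) * (1 / vn s ε true z.val k hd he R))) *
          (1 / vn s ε true z.val k hd he R) := by
      unfold dyi
      rw [hcr, mul_one_div, mul_one_div]
    rw [hdy]
    exact p3.trans (congrArg (rsg _) hC)
  · have hdl : dL s ε true z k hd he R (ydP s k hd he z) =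
        dn s ε true z k hd he R (ydP s k hd he z) * (1 / vn s ε true z.val k hd he R) - 1 := by
      unfold dL
      rw [mul_one_div]
    rw [hdl]
    exact p4.trans hE

end Pool.Agent.Helper6.MONO
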